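import Mathlib

/-!
# Multilinear Tate maps
-/

set_option autoImplicit false

namespace Pool.Agent.N578.MT

/-- A multilinear map on `V` (a rational Tate module with the action `ρ`) with values in `M` (with the action `σ`) is a
*Tate map* for the twist `c` if it is equivariant up to the `c`-th power of the cyclotomic character, for a subgroup of
finite index of the Galois group. -/
def IsTateMulti {k V Γ M : Type*} [Field k] [AddCommGroup V] [Module k V] [Group Γ] [AddCommGroup M] [Module k M]
    (ρ : Representation k Γ V) (χ : Γ →* k) (σ : Representation k Γ M) (c : ℤ) {κ : Type*}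
    (f : MultilinearMap k (fun _ : κ => V) M) : Prop :=
  ∃ Δ : Subgroup Γ, Δ.FiniteIndex ∧ ∀ s ∈ Δ, ∀ v : κ → V, f (fun l => ρ s (v l)) = χ s ^ c • σ s (f v)

end Pool.Agent.N578.MT
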