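import Mathlib
import Pool.Agent.TH170.FT.CommonDefs
import Pool.Agent.N166.CZ.Def
import Pool.Agent.N578.MT.DefMulti

/-!
# The common `ℚ`-form of the `ℓ`-adic monodromy groups of the sum of an abelian variety and a motive: the property
-/

set_option autoImplicit false

namespace Pool.Agent.N578.MT

open Polynomial TensorProduct Pool.Agent.TH170 Pool.Agent.N166.CZ

section

variable {W T Γ N : Type} [AddCommGroup W] [Module ℚ W] [AddCommGroup T] [Module ℂ T] [Group Γ]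
  [AddCommGroup N] [Module ℚ N] {per : W →+ T} {ω₀ : W →ₗ[ℚ] W →ₗ[ℚ] ℚ}

/-- `N` is the rational (Betti) realization of a motive, and `σ ℓ` is the action of the Galois group on the `ℓ`-adic
realization `ℚ_ℓ ⊗ N`. The vector `z` of `N` is a Tate class, for the twist `c`, for all prime numbers `ℓ ≥ ℓ₀`. -/
def IsCommonVector (D : ∀ (ℓ : ℕ) [Fact ℓ.Prime], FT.GaloisData per ω₀ Γ ℓ)
    (σ : ∀ (ℓ : ℕ) [Fact ℓ.Prime], Representation ℚ_[ℓ] Γ (ℚ_[ℓ] ⊗[ℚ] N)) (ℓ₀ : ℕ) (c : ℤ) (z : N) : Prop :=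
  ∀ (ℓ : ℕ) [Fact ℓ.Prime], ℓ₀ ≤ ℓ → IsTateVector (D ℓ).χ (σ ℓ) c ((1 : ℚ_[ℓ]) ⊗ₜ[ℚ] z)

/-- For all prime numbers `ℓ ≥ ℓ₀` and all twists all Tate classes in `ℚ_ℓ ⊗ N` are linear combinations of rational vectors
which are Tate classes for all `ℓ ≥ ℓ₀`. -/
def HasCommonVectors (D : ∀ (ℓ : ℕ) [Fact ℓ.Prime], FT.GaloisData per ω₀ Γ ℓ)
    (σ : ∀ (ℓ : ℕ) [Fact ℓ.Prime], Representation ℚ_[ℓ] Γ (ℚ_[ℓ] ⊗[ℚ] N)) (ℓ₀ : ℕ) : Prop :=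
  ∀ (ℓ : ℕ) [Fact ℓ.Prime], ℓ₀ ≤ ℓ → ∀ (c : ℤ) (z : ℚ_[ℓ] ⊗[ℚ] N), IsTateVector (D ℓ).χ (σ ℓ) c z →
    z ∈ Submodule.span ℚ_[ℓ] {y | ∃ z₀ : N, IsCommonVector D σ ℓ₀ c z₀ ∧ y = (1 : ℚ_[ℓ]) ⊗ₜ[ℚ] z₀}

/-- The multilinear map `f₀` on `W` with values in `N` is mapped to `f` by the comparison isomorphisms. -/
def ComparesMap {ℓ : ℕ} [Fact ℓ.Prime] {n : ℕ}
    (f : MultilinearMap ℚ_[ℓ] (fun _ : Fin n => ℚ_[ℓ] ⊗[ℚ] W) (ℚ_[ℓ] ⊗[ℚ] N))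
    (f₀ : MultilinearMap ℚ (fun _ : Fin n => W) N) : Prop :=
  ∀ v : Fin n → W, f (fun i => (1 : ℚ_[ℓ]) ⊗ₜ[ℚ] v i) = (1 : ℚ_[ℓ]) ⊗ₜ[ℚ] f₀ v

/-- The rational class `f₀` in `Hom (H_1(A)^{⊗ n}, N)` is a Tate class, for the twist `c`, for all prime numbers
`ℓ ≥ ℓ₀`. -/
def IsCommonMap (D : ∀ (ℓ : ℕ) [Fact ℓ.Prime], FT.GaloisData per ω₀ Γ ℓ)
    (σ : ∀ (ℓ : ℕ) [Fact ℓ.Prime], Representation ℚ_[ℓ] Γ (ℚ_[ℓ] ⊗[ℚ] N)) (ℓ₀ : ℕ) (c : ℤ) {n : ℕ}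
    (f₀ : MultilinearMap ℚ (fun _ : Fin n => W) N) : Prop :=
  ∀ (ℓ : ℕ) [Fact ℓ.Prime], ℓ₀ ≤ ℓ →
    ∀ f : MultilinearMap ℚ_[ℓ] (fun _ : Fin n => ℚ_[ℓ] ⊗[ℚ] W) (ℚ_[ℓ] ⊗[ℚ] N), ComparesMap f f₀ →
      IsTateMulti (D ℓ).ρ (D ℓ).χ (σ ℓ) c f

/-- For all prime numbers `ℓ ≥ ℓ₀`, all `n` and all twists all Tate classes in `Hom (H_1(A)^{⊗ n}, N) ⊗ ℚ_ℓ` are linear
combinations of rational classes which are Tate classes for all `ℓ ≥ ℓ₀`. -/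
def HasCommonMaps (D : ∀ (ℓ : ℕ) [Fact ℓ.Prime], FT.GaloisData per ω₀ Γ ℓ)
    (σ : ∀ (ℓ : ℕ) [Fact ℓ.Prime], Representation ℚ_[ℓ] Γ (ℚ_[ℓ] ⊗[ℚ] N)) (ℓ₀ : ℕ) : Prop :=
  ∀ (ℓ : ℕ) [Fact ℓ.Prime], ℓ₀ ≤ ℓ → ∀ (n : ℕ) (c : ℤ)
    (f : MultilinearMap ℚ_[ℓ] (fun _ : Fin n => ℚ_[ℓ] ⊗[ℚ] W) (ℚ_[ℓ] ⊗[ℚ] N)),
    IsTateMulti (D ℓ).ρ (D ℓ).χ (σ ℓ) c f → f ∈ Submodule.span ℚ_[ℓ]
      {f' : MultilinearMap ℚ_[ℓ] (fun _ : Fin n => ℚ_[ℓ] ⊗[ℚ] W) (ℚ_[ℓ] ⊗[ℚ] N) |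
        ∃ f₀ : MultilinearMap ℚ (fun _ : Fin n => W) N, IsCommonMap D σ ℓ₀ c f₀ ∧ ComparesMap f' f₀}

end

/-- For all abelian varieties `A` over number fields (with the data and the known properties in `GaloisData`) such that for
all primes `ℓ ≥ ℓ₀` the characteristic polynomial of a Frobenius element `γ ℓ` at one place, with `q` the number of elements
of the residue field, is the product of the `f i`: the `ℓ`-adic monodromy groups of `A` have a common `ℚ`-form; and for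
all motives with rational realization `N` such that the eigenvalues of `(γ ℓ)⁻¹` on `ℚ_ℓ ⊗ N` have rank at most `r` over
`E`: the Tate classes in all the `Hom (H_1(A)^{⊗ n}, N)(c)` come from rational classes which are Tate classes for all
`ℓ ≥ ℓ₀` if and only if this is true for the Tate classes in the `N(c)`. -/
def CommonFor {I : Type} [Fintype I] (E : IntermediateField ℚ ℂ) (q r : ℕ) (f : I → ℤ[X]) : Prop :=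
  ∀ (W T Γ : Type) [AddCommGroup W] [Module ℚ W] [FiniteDimensional ℚ W] [AddCommGroup T] [Module ℂ T]
    [Group Γ] (per : W →+ T) (ω₀ : W →ₗ[ℚ] W →ₗ[ℚ] ℚ)
    (D : ∀ (ℓ : ℕ) [Fact ℓ.Prime], FT.GaloisData per ω₀ Γ ℓ) (ℓ₀ : ℕ) (γ : ℕ → Γ),
    (∀ (ℓ : ℕ) [Fact ℓ.Prime], ℓ₀ ≤ ℓ → (D ℓ).χ (γ ℓ) = q ∧
      ((D ℓ).ρ (γ ℓ)).charpoly = ∏ i, (f i).map (Int.castRingHom ℚ_[ℓ])) →
    FT.HasCommonForm D ℓ₀ ∧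
    ∀ (N : Type) [AddCommGroup N] [Module ℚ N] [FiniteDimensional ℚ N]
      (σ : ∀ (ℓ : ℕ) [Fact ℓ.Prime], Representation ℚ_[ℓ] Γ (ℚ_[ℓ] ⊗[ℚ] N)),
      (∀ (ℓ : ℕ) [Fact ℓ.Prime], ℓ₀ ≤ ℓ → SmallRank E r (σ ℓ (γ ℓ)⁻¹)) →
      (HasCommonMaps D σ ℓ₀ ↔ HasCommonVectors D σ ℓ₀)

end Pool.Agent.N578.MT
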