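import Mathlib
import Pool.Agent.N166.CZ.Main
import Pool.Agent.H204R3.GP.MT
import Pool.Agent.TH170.FT.MTDefs

/-!
# Tate classes and the Mumford-Tate conjecture for good Frobenius polynomials
-/

set_option autoImplicit false

namespace Pool.Agent.N578.MT

open Module Polynomial Pool.Agent.H204R3.GP Pool.Agent.H204R3.SP Pool.Agent.W484.TB
  Pool.Agent.W484.HS Pool.Agent.W521.Frob Pool.Agent.W521.Count Pool.Agent.W521.Bad
  Pool.Agent.W521.Descent Pool.Agent.W521.Density Pool.Agent.N166.CZ Pool.Agent.TH170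

theorem tate_of_good {I : Type} [Fintype I] (g : I → ℕ) (hg : ∀ i, 0 < g i) (E : IntermediateField ℚ ℂ)
    [FiniteDimensional ℚ E] {q : ℕ} (hq : q ≠ 0)
    (x : (Σ i, Fin (g i)) → ℤ) (hx : GoodU (splitPrimes E) g q x)
    {k V Γ : Type} [Field k] [CharZero k] [AddCommGroup V] [Module k V] [FiniteDimensional k V] [Group Γ]
    (ρ : Representation k Γ V) (χ : Γ →* k) (hV : IsTateModule ρ χ) (γ : Γ) (hχ : χ γ = q)
    (hγ : (ρ γ).charpoly = ∏ i, (weil q (polys g x i)).map (Int.castRingHom k))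
    (m : ℕ) (φ : MultilinearMap k (fun _ : Fin m × Fin 2 => V) k)
    (hφ : Pool.Agent.H204R3.SP.IsTate ρ χ m φ) : φ ∈ Submodule.span k (PT ρ χ m) := by
  classical
  obtain ⟨⟨ω, halt, hnd, hω⟩, hss⟩ := hV
  have hss' : ∀ Δ : Subgroup Γ, Δ.FiniteIndex → SemiUnder (ρ '' (Δ : Set Γ)) := by
    intro Δ hΔ U hU
    obtain ⟨U', h1, h2⟩ := hss Δ hΔ U (fun s hs u hu => hU _ ⟨s, hs, rfl⟩ u hu)
    refine ⟨U', ?_, h2⟩
    rintro _ ⟨s, hs, rfl⟩ u hu
    exact h1 s hs u hu
  -- the field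
  let K := SplittingField (ρ γ).charpoly
  have hinj : Function.Injective (algebraMap k K) := (algebraMap k K).injective
  have : CharZero K := charZero_of_injective_algebraMap hinj
  have hC0 : (ρ γ).charpoly ≠ 0 := (ρ γ).charpoly_monic.ne_zero
  have hsp1 : ((ρ γ).charpoly.map (algebraMap k K)).Splits := SplittingField.splits _
  have hsep : (ρ γ).charpoly.Separable := by
    rw [hγ]
    have h1 := (separable_weil g (splitPrimes E) hq x hx).map (f := algebraMap ℚ k)
    rw [Polynomial.map_prod] at h1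
    have h2 : ∀ i, ((weil q (polys g x i)).map (Int.castRingHom ℚ)).map (algebraMap ℚ k) =
        (weil q (polys g x i)).map (Int.castRingHom k) := by
      intro i
      rw [Polynomial.map_map]
      congr 1
      exact RingHom.ext_int _ _
    simpa only [h2] using h1
  have hroot : ∀ z : {z : K // ((ρ γ).charpoly.map (algebraMap k K)).IsRoot z},
      ∃ i, aeval (z : K) (weil q (polys g x i)) = 0 := by
    rintro ⟨z, hz0⟩
    have hz : ((∏ i, (weil q (polys g x i)).map (Int.castRingHom k)).map (algebraMap k K)).IsRoot z := by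
      rw [← hγ]
      exact hz0
    rw [Polynomial.map_prod, IsRoot, eval_prod, Finset.prod_eq_zero_iff] at hz
    obtain ⟨i, -, hi⟩ := hz
    refine ⟨i, ?_⟩
    rw [Polynomial.map_map, eval_map] at hi
    rw [RingHom.ext_int ((algebraMap k K).comp (Int.castRingHom k)) (algebraMap ℤ K)] at hi
    exact hi
  have hpair1 : ExactPairK
        (fun z : {z : K // ((ρ γ).charpoly.map (algebraMap k K)).IsRoot z} => (z : K))
        (algebraMap k K (χ γ)) 1 := by
    refine exactPairK_transfer (exactPair_field_over g E hq 0 hg x hx 1 one_pos (X - 1)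
      (X_sub_C_ne_zero 1) (Pool.Agent.W484.CH.rank_one E 0) 1
      (by rw [map_sub, aeval_X, map_one, sub_self]))
      (fun z => ⟨z, hroot z⟩) (fun z => pow_one _) ?_
    rw [hχ, pow_one, map_natCast]
  have h := (core ρ χ ω halt hnd hω hss' γ (K := K) hsep hsp1 (1 : Γ →* Matrix (Fin 1) (Fin 1) k)
    (X - C 1) (X_sub_C_ne_zero 1) (Splits.X_sub_C 1) ?_ hpair1 ?_).1 m (m : ℤ) (fun _ => φ) ?_ 0
  · exact h
  · have h1 : bcS (1 : Γ →* Matrix (Fin 1) (Fin 1) k) K γ⁻¹ = 1 := by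
      change (algebraMap k K).mapMatrix (1 : Matrix (Fin 1) (Fin 1) k) = 1
      rw [map_one]
    rw [h1, Matrix.toLin'_one, map_sub, aeval_X, aeval_C, map_one]
    exact sub_self _
  · intro ρ' hρ'
    have h1 : ρ' = 1 := by
      rw [IsRoot, eval_sub, eval_X, eval_C, sub_eq_zero] at hρ'
      exact hρ'
    rw [h1]
    exact hpair1
  · obtain ⟨Δ, hΔ, h1⟩ := hφ
    refine ⟨Δ, hΔ, fun s hs v i => ?_⟩
    rw [h1 s hs v, zpow_natCast]
    congr 1
    rw [Fin.sum_univ_one, MonoidHom.one_apply]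
    have h0 : i = 0 := Subsingleton.elim _ _
    rw [h0, Matrix.one_apply_eq, one_mul]

theorem mumfordTate_of_good {I : Type} [Fintype I] (g : I → ℕ) (hg : ∀ i, 0 < g i)
    (E : IntermediateField ℚ ℂ) [FiniteDimensional ℚ E] {q : ℕ} (hq : q ≠ 0)
    (x : (Σ i, Fin (g i)) → ℤ) (hx : GoodU (splitPrimes E) g q x)
    {ℓ : ℕ} [Fact ℓ.Prime] {W T V Γ : Type} [AddCommGroup W] [Module ℚ W] [AddCommGroup T] [Module ℂ T]
    [AddCommGroup V] [Module ℚ_[ℓ] V] [FiniteDimensional ℚ_[ℓ] V] [Group Γ] {per : W →+ T}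
    {ω₀ : W →ₗ[ℚ] W →ₗ[ℚ] ℚ} {comp : W →+ V} {ρ : Representation ℚ_[ℓ] Γ V} {χ : Γ →* ℚ_[ℓ]}
    {ω : V →ₗ[ℚ_[ℓ]] V →ₗ[ℚ_[ℓ]] ℚ_[ℓ]} (hR : FT.IsRealization per ω₀ comp ρ χ ω) (γ : Γ)
    (hχ : χ γ = q) (hγ : (ρ γ).charpoly = ∏ i, (weil q (polys g x i)).map (Int.castRingHom ℚ_[ℓ])) :
    MumfordTateStrong per comp ρ χ := by
  have hanti : ∀ u v, ω u v = - ω v u := by
    intro u v
    have h1 := hR.alternating (u + v)
    simp only [map_add, LinearMap.add_apply, hR.alternating, zero_add, add_zero] at h1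
    linear_combination h1
  have hnd' : ∀ u, (∀ v, ω u v = 0) → u = 0 := by
    intro u hu
    apply hR.nondegenerate
    intro v
    rw [hanti, hu, neg_zero]
  exact mumfordTate_of per comp ρ χ ω hnd' hR.equivariant ω₀ hR.hodge hR.compatible hR.faltings
    fun m φ hφ => tate_of_good g hg E hq x hx ρ χ
      ⟨⟨ω, hR.alternating, hR.nondegenerate, hR.equivariant⟩, hR.semisimple⟩ γ hχ hγ m φ hφ

end Pool.Agent.N578.MT
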