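import Mathlib
import Pool.Agent.N166.CZ.Alt
import Pool.Agent.N166.CZ.Main
import Pool.Agent.N578.MT.DefMulti

/-!
# Multilinear Tate maps with values in a representation are combinations of products
-/

set_option autoImplicit false
set_option linter.unusedSectionVars false

namespace Pool.Agent.N578.MT

open Module Polynomial Pool.Agent.H204R3.CM Pool.Agent.H204R3.SP Pool.Agent.H204R3.GP Pool.Agent.N166.CZ

noncomputable section

variable {k : Type*} [Field k] [CharZero k] {V : Type*} [AddCommGroup V] [Module k V]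
  {Γ : Type*} [Group Γ] (ρ : Representation k Γ V) (χ : Γ →* k)
  {M : Type*} [AddCommGroup M] [Module k M] [FiniteDimensional k M] (σ : Representation k Γ M)

/-- Evaluation of sums. -/
theorem mul_sum_apply {N : Type*} [AddCommGroup N] [Module k N] {κ J : Type*} (s : Finset J)
    (g : J → MultilinearMap k (fun _ : κ => V) N) (v : κ → V) :
    (∑ j ∈ s, g j) v = ∑ j ∈ s, g j v :=
  map_sum ({ toFun := fun g => g v
             map_zero' := rfl
             map_add' := fun _ _ => rfl } : (MultilinearMap k (fun _ : κ => V) N) →+ N) g s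

/-- Products of Tate forms of degree two are Tate forms. -/
theorem PT_tate {m : ℕ} {g : MultilinearMap k (fun _ : Fin m × Fin 2 => V) k} (hg : g ∈ PT ρ χ m) :
    ∃ Δ : Subgroup Γ, Δ.FiniteIndex ∧ ∀ s ∈ Δ, ∀ v : Fin m × Fin 2 → V,
      g (fun l => ρ s (v l)) = χ s ^ m * g v := by
  obtain ⟨e, B, hB, rfl⟩ := hg
  choose Δ hΔ h using hB
  refine ⟨⨅ l, Δ l, Subgroup.finiteIndex_iInf hΔ, fun s hs v => ?_⟩
  rw [mmG_apply, mmG_apply]
  have h1 : ∀ l, B l (ρ s (v (e (l, 0)))) (ρ s (v (e (l, 1)))) =
      χ s * B l (v (e (l, 0))) (v (e (l, 1))) := fun l =>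
    h l s ((Subgroup.mem_iInf.1 hs) l) _ _
  rw [Finset.prod_congr rfl (fun l _ => h1 l), Finset.prod_mul_distrib, Finset.prod_const,
    Finset.card_univ, Fintype.card_fin]

/-- The coordinates of a multilinear map. -/
def crdM {d : ℕ} (bM : Basis (Fin d) k M) {κ : Type} (f : MultilinearMap k (fun _ : κ => V) M)
    (j : Fin d) : MultilinearMap k (fun _ : κ => V) k :=
  (bM.coord j).compMultilinearMap f

theorem crdM_apply {d : ℕ} (bM : Basis (Fin d) k M) {κ : Type}
    (f : MultilinearMap k (fun _ : κ => V) M) (j : Fin d) (v : κ → V) :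
    crdM bM f j v = bM.repr (f v) j := rfl

theorem isTateF_crd {d : ℕ} (bM : Basis (Fin d) k M) {κ : Type} {c : ℤ}
    {f : MultilinearMap k (fun _ : κ => V) M} (hf : IsTateMulti ρ χ σ c f) :
    IsTateF ρ χ (matS σ bM) c (fun j => crdM bM f j) := by
  obtain ⟨Δ, hΔ, hf⟩ := hf
  refine ⟨Δ, hΔ, fun s hs v i => ?_⟩
  rw [crdM_apply, hf s hs v, map_smul, Finsupp.smul_apply, smul_eq_mul, matS_apply]
  rfl

/-- **The products.** -/
theorem multi_of
    (h : ∀ (d : ℕ) (bM : Basis (Fin d) k M),
      (∀ (m : ℕ) (c : ℤ) (φ : Fin d → MultilinearMap k (fun _ : Fin m × Fin 2 => V) k),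
        IsTateF ρ χ (matS σ bM) c φ → ∀ i, φ i ∈ Submodule.span k (PT ρ χ m)) ∧
      ∀ (κ : Type) (_ : Fintype κ) (_ : DecidableEq κ) (c : ℤ)
        (φ : Fin d → MultilinearMap k (fun _ : κ => V) k), Odd (Fintype.card κ) →
        IsTateF ρ χ (matS σ bM) c φ → ∀ i, φ i = 0) :
    (∀ (m : ℕ) (c : ℤ) (f : MultilinearMap k (fun _ : Fin m × Fin 2 => V) M), IsTateMulti ρ χ σ c f →
      ∃ (b : Set (MultilinearMap k (fun _ : Fin m × Fin 2 => V) k)) (T : Finset b) (z : b → M), b ⊆ PT ρ χ m ∧
        (∀ w ∈ T, IsTateVector χ σ (c - m) (z w)) ∧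
        ∀ v, f v = ∑ w ∈ T, (w : MultilinearMap k (fun _ : Fin m × Fin 2 => V) k) v • z w) ∧
    ∀ (κ : Type) (_ : Fintype κ) (c : ℤ) (f : MultilinearMap k (fun _ : κ => V) M), Odd (Fintype.card κ) →
      IsTateMulti ρ χ σ c f → f = 0 := by
  classical
  let bM := Module.finBasis k M
  obtain ⟨heven, hodd⟩ := h _ bM
  refine ⟨fun m c f hf => ?_, fun κ _ c f hκ hf => ?_⟩
  · have h1 : ∀ j, crdM bM f j ∈ Submodule.span k (PT ρ χ m) := fun j =>
      heven m c _ (isTateF_crd ρ χ σ bM hf) j
    obtain ⟨b, hbW, hbs, hbi⟩ := exists_linearIndependent k (PT ρ χ m)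
    have h2 : ∀ j, ∃ l : b →₀ k, crdM bM f j = Finsupp.linearCombination k
        ((↑) : b → MultilinearMap k (fun _ : Fin m × Fin 2 => V) k) l := by
      intro j
      have h3 := h1 j
      rw [← hbs, ← Subtype.range_coe (s := b), Finsupp.mem_span_range_iff_exists_finsupp] at h3
      obtain ⟨l, hl⟩ := h3
      exact ⟨l, by rw [← hl, Finsupp.linearCombination_apply]⟩
    choose l hl using h2
    let T : Finset b := Finset.univ.biUnion fun j => (l j).support
    let z : b → M := fun w => ∑ j, l j w • bM j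
    have hcr : ∀ j v, crdM bM f j v = ∑ w ∈ T, l j w * (w : MultilinearMap k (fun _ : Fin m × Fin 2 => V) k) v
        := by
      intro j v
      have hsub : (l j).support ⊆ T :=
        Finset.subset_biUnion_of_mem (fun j => (l j).support) (Finset.mem_univ j)
      rw [hl j, Finsupp.linearCombination_apply, Finsupp.sum_of_support_subset (l j) hsub
        (fun w a => a • (w : MultilinearMap k (fun _ : Fin m × Fin 2 => V) k)) (fun w _ => zero_smul k _),
        mul_sum_apply]
      rfl
    have hfv : ∀ v, f v = ∑ w ∈ T, (w : MultilinearMap k (fun _ : Fin m × Fin 2 => V) k) v • z w := by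
      intro v
      have h3 : f v = ∑ j, crdM bM f j v • bM j := (bM.sum_repr (f v)).symm
      rw [h3]
      simp only [hcr, z, Finset.sum_smul, Finset.smul_sum]
      rw [Finset.sum_comm]
      refine Finset.sum_congr rfl fun w _ => Finset.sum_congr rfl fun j _ => ?_
      rw [smul_smul, mul_comm]
    refine ⟨b, T, z, hbW, ?_, hfv⟩
    -- the vectors are Tate vectors
    obtain ⟨Δ, hΔ, hΔf⟩ := hf
    choose Δw hΔw hΔw' using fun w : b => PT_tate ρ χ (hbW w.2)
    intro w₀ hw₀
    refine ⟨Δ ⊓ ⨅ w : T, Δw w, ?_, fun s hs => ?_⟩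
    · have : (⨅ w : T, Δw w).FiniteIndex := Subgroup.finiteIndex_iInf fun w => hΔw _
      infer_instance
    · let u : b → M := fun w => χ s ^ c • σ s (z w) - χ s ^ m • z w
      have h3 : ∀ v, ∑ w ∈ T, (w : MultilinearMap k (fun _ : Fin m × Fin 2 => V) k) v • u w = 0 := by
        intro v
        have h4 := hΔf s hs.1 v
        rw [hfv, hfv, map_sum, Finset.smul_sum] at h4
        have h5 : ∀ w ∈ T, (w : MultilinearMap k (fun _ : Fin m × Fin 2 => V) k) (fun l => ρ s (v l)) =
            χ s ^ m * (w : MultilinearMap k (fun _ : Fin m × Fin 2 => V) k) v := fun w hw =>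
          hΔw' w s ((Subgroup.mem_iInf.1 hs.2) ⟨w, hw⟩) v
        rw [← sub_eq_zero.2 h4.symm, ← Finset.sum_sub_distrib]
        refine Finset.sum_congr rfl fun w hw => ?_
        rw [h5 w hw, map_smul]
        simp only [u]
        rw [smul_sub, smul_smul, smul_smul, smul_smul, mul_comm (χ s ^ c),
          mul_comm (χ s ^ m)]
      have h6 : u w₀ = 0 := by
        apply bM.repr.injective
        rw [map_zero]
        ext j
        rw [Finsupp.zero_apply]
        have h7 : ∑ w ∈ T, bM.repr (u w) j • (w : MultilinearMap k (fun _ : Fin m × Fin 2 => V) k) = 0 := by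
          ext v
          rw [mul_sum_apply]
          have h8 := congrArg (fun y => bM.repr y j) (h3 v)
          simp only [map_sum, map_zero, Finsupp.zero_apply, map_smul, Finsupp.coe_finset_sum,
            Finset.sum_apply, Finsupp.smul_apply, smul_eq_mul] at h8
          refine Eq.trans ?_ h8
          refine Finset.sum_congr rfl fun w _ => ?_
          change bM.repr (u w) j * _ = _
          rw [mul_comm]
        exact (linearIndependent_iff'.1 hbi T _ h7) w₀ hw₀
      have h9 : χ s ^ c • σ s (z w₀) = χ s ^ m • z w₀ := sub_eq_zero.1 h6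
      rw [zpow_sub₀ (chi_ne χ s), zpow_natCast, div_eq_inv_mul, mul_smul, h9, smul_smul,
        inv_mul_cancel₀ (pow_ne_zero _ (chi_ne χ s)), one_smul]
  · have h1 : ∀ j, crdM bM f j = 0 := fun j =>
      hodd κ inferInstance (Classical.decEq κ) c _ hκ (isTateF_crd ρ χ σ bM hf) j
    ext v
    apply bM.repr.injective
    ext j
    have h2 := congrArg (fun g : MultilinearMap k (fun _ : κ => V) k => g v) (h1 j)
    change bM.repr (f v) j = 0 at h2
    rw [h2]
    change 0 = bM.repr 0 j
    rw [map_zero, Finsupp.zero_apply]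

end

end Pool.Agent.N578.MT
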