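import Mathlib
import Pool.Agent.N578.MT.Multi

/-!
# Multilinear Tate maps for good Frobenius polynomials
-/

set_option autoImplicit false

namespace Pool.Agent.N578.MT

open Module Polynomial Pool.Agent.H204R3.GP Pool.Agent.H204R3.SP Pool.Agent.W484.TB
  Pool.Agent.W484.HS Pool.Agent.W521.Frob Pool.Agent.W521.Count Pool.Agent.W521.Bad
  Pool.Agent.W521.Descent Pool.Agent.W521.Density Pool.Agent.N166.CZ

theorem multi_of_good {I : Type} [Fintype I] (g : I → ℕ) (E : IntermediateField ℚ ℂ)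
    [FiniteDimensional ℚ E] {q : ℕ} (hq : q ≠ 0) (r : ℕ) (hr : ∀ i, r < g i)
    (x : (Σ i, Fin (g i)) → ℤ) (hx : GoodU (splitPrimes E) g q x)
    {k V Γ : Type} [Field k] [CharZero k] [AddCommGroup V] [Module k V] [FiniteDimensional k V] [Group Γ]
    (ρ : Representation k Γ V) (χ : Γ →* k) (hV : IsTateModule ρ χ) (γ : Γ) (hχ : χ γ = q)
    (hγ : (ρ γ).charpoly = ∏ i, (weil q (polys g x i)).map (Int.castRingHom k))
    {M : Type} [AddCommGroup M] [Module k M] [FiniteDimensional k M] (σ : Representation k Γ M)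
    (hσ : SmallRank E r (σ γ⁻¹)) :
    (∀ (m : ℕ) (c : ℤ) (f : MultilinearMap k (fun _ : Fin m × Fin 2 => V) M), IsTateMulti ρ χ σ c f →
      ∃ (b : Set (MultilinearMap k (fun _ : Fin m × Fin 2 => V) k)) (T : Finset b) (z : b → M), b ⊆ PT ρ χ m ∧
        (∀ w ∈ T, IsTateVector χ σ (c - m) (z w)) ∧
        ∀ v, f v = ∑ w ∈ T, (w : MultilinearMap k (fun _ : Fin m × Fin 2 => V) k) v • z w) ∧
    ∀ (κ : Type) (_ : Fintype κ) (c : ℤ) (f : MultilinearMap k (fun _ : κ => V) M), Odd (Fintype.card κ) →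
      IsTateMulti ρ χ σ c f → f = 0 := by
  classical
  obtain ⟨⟨ω, halt, hnd, hω⟩, hss⟩ := hV
  obtain ⟨P, hP0, hP, hrank⟩ := hσ
  have hss' : ∀ Δ : Subgroup Γ, Δ.FiniteIndex → SemiUnder (ρ '' (Δ : Set Γ)) := by
    intro Δ hΔ U hU
    obtain ⟨U', h1, h2⟩ := hss Δ hΔ U (fun s hs u hu => hU _ ⟨s, hs, rfl⟩ u hu)
    refine ⟨U', ?_, h2⟩
    rintro _ ⟨s, hs, rfl⟩ u hu
    exact h1 s hs u hu
  -- the field
  let F : k[X] := (ρ γ).charpoly * P.map (algebraMap ℚ k)
  let K := SplittingField F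
  have hinj : Function.Injective (algebraMap k K) := (algebraMap k K).injective
  have : CharZero K := charZero_of_injective_algebraMap hinj
  have hPk0 : P.map (algebraMap ℚ k) ≠ 0 := by
    rw [Ne, Polynomial.map_eq_zero]
    exact hP0
  have hC0 : (ρ γ).charpoly ≠ 0 := (ρ γ).charpoly_monic.ne_zero
  have hFs : (F.map (algebraMap k K)).Splits := SplittingField.splits F
  rw [Polynomial.map_mul] at hFs
  have hCK0 : (ρ γ).charpoly.map (algebraMap k K) ≠ 0 := by
    rw [Ne, Polynomial.map_eq_zero]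
    exact hC0
  have hPK : (P.map (algebraMap ℚ k)).map (algebraMap k K) = P.map (algebraMap ℚ K) := by
    rw [Polynomial.map_map]
    congr 1
  have hPK0 : P.map (algebraMap ℚ K) ≠ 0 := by
    rw [Ne, Polynomial.map_eq_zero]
    exact hP0
  rw [hPK] at hFs
  have hsp1 : ((ρ γ).charpoly.map (algebraMap k K)).Splits :=
    hFs.of_dvd (mul_ne_zero hCK0 hPK0) (dvd_mul_right _ _)
  have hsp2 : (P.map (algebraMap ℚ K)).Splits :=
    hFs.of_dvd (mul_ne_zero hCK0 hPK0) (dvd_mul_left _ _)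
  have hsep : (ρ γ).charpoly.Separable := by
    rw [hγ]
    have h1 := (separable_weil g (splitPrimes E) hq x hx).map (f := algebraMap ℚ k)
    rw [Polynomial.map_prod] at h1
    have h2 : ∀ i, ((weil q (polys g x i)).map (Int.castRingHom ℚ)).map (algebraMap ℚ k) =
        (weil q (polys g x i)).map (Int.castRingHom k) := by
      intro i
      rw [Polynomial.map_map]
      congr 1
      exact RingHom.ext_int _ _
    simpa only [h2] using h1
  have hroot : ∀ z : {z : K // ((ρ γ).charpoly.map (algebraMap k K)).IsRoot z},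
      ∃ i, aeval (z : K) (weil q (polys g x i)) = 0 := by
    rintro ⟨z, hz⟩
    rw [hγ, Polynomial.map_prod, IsRoot, eval_prod, Finset.prod_eq_zero_iff] at hz
    obtain ⟨i, -, hi⟩ := hz
    refine ⟨i, ?_⟩
    rw [Polynomial.map_map, eval_map] at hi
    rw [RingHom.ext_int ((algebraMap k K).comp (Int.castRingHom k)) (algebraMap ℤ K)] at hi
    exact hi
  have hpair : ∀ (P' : ℚ[X]), P' ≠ 0 → RankLEOver E r {z : ℂ | aeval z P' = 0} →
      ∀ ρ' : K, aeval ρ' P' = 0 → ExactPairK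
        (fun z : {z : K // ((ρ γ).charpoly.map (algebraMap k K)).IsRoot z} => (z : K))
        (algebraMap k K (χ γ)) ρ' := by
    intro P' hP' hr' ρ' hρ'
    refine exactPairK_transfer (exactPair_field_over g E hq r hr x hx 1 one_pos P' hP' hr' ρ' hρ')
      (fun z => ⟨z, hroot z⟩) (fun z => pow_one _) ?_
    rw [hχ, pow_one, map_natCast]
  refine multi_of ρ χ σ fun d bM => ?_
  refine core ρ χ ω halt hnd hω hss' γ (K := K) hsep hsp1 (matS σ bM) (P.map (algebraMap ℚ K))
    hPK0 hsp2 (aeval_bcS σ bM _ P hP) ?_ ?_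
  · refine hpair (X - 1) ?_ (Pool.Agent.W484.CH.rank_one E r) 1
      (by rw [map_sub, aeval_X, map_one, sub_self])
    exact X_sub_C_ne_zero 1
  · intro ρ' hρ'
    refine hpair P hP0 hrank ρ' ?_
    rw [IsRoot, eval_map] at hρ'
    exact hρ'

end Pool.Agent.N578.MT
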