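import Mathlib
import Pool.Agent.N578.MT.DefCom
import Pool.Agent.N578.MT.Good
import Pool.Agent.N578.MT.Good2
import Pool.Agent.H204R3.SP.Descent

/-!
# The common `ℚ`-form of the sum of an abelian variety and a motive
-/

set_option autoImplicit false
set_option linter.unusedSectionVars false

namespace Pool.Agent.N578.MT

open Module Polynomial TensorProduct Pool.Agent.H204R3.GP Pool.Agent.H204R3.SP Pool.Agent.W484.TB
  Pool.Agent.W521.Frob Pool.Agent.W521.Count Pool.Agent.W521.Bad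
  Pool.Agent.W521.Descent Pool.Agent.W521.Density Pool.Agent.N166.CZ Pool.Agent.TH170

noncomputable section

section

variable {k V M : Type*} [Field k] [AddCommGroup V] [Module k V] [AddCommGroup M] [Module k M] {κ ι : Type*}

/-- The product of a form with a vector, with a renumbering of the variables. -/
def tn (e : ι ≃ κ) (φ : MultilinearMap k (fun _ : κ => V) k) (z : M) : MultilinearMap k (fun _ : ι => V) M :=
  ((LinearMap.toSpanSingleton k M z).compMultilinearMap φ).domDomCongr e.symm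

theorem tn_apply (e : ι ≃ κ) (φ : MultilinearMap k (fun _ : κ => V) k) (z : M) (v : ι → V) :
    tn e φ z v = φ (fun l => v (e.symm l)) • z := rfl

theorem tn_span (e : ι ≃ κ) {S1 : Set (MultilinearMap k (fun _ : κ => V) k)} {S2 : Set M}
    {S : Set (MultilinearMap k (fun _ : ι => V) M)} (h : ∀ φ ∈ S1, ∀ z ∈ S2, tn e φ z ∈ S)
    {φ : MultilinearMap k (fun _ : κ => V) k} (hφ : φ ∈ Submodule.span k S1) {z : M}
    (hz : z ∈ Submodule.span k S2) : tn e φ z ∈ Submodule.span k S := by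
  induction hφ using Submodule.span_induction with
  | mem φ hφ =>
    induction hz using Submodule.span_induction with
    | mem z hz => exact Submodule.subset_span (h φ hφ z hz)
    | zero =>
      have h1 : tn e φ (0 : M) = 0 := by
        ext v
        rw [tn_apply, smul_zero]
        rfl
      rw [h1]
      exact Submodule.zero_mem _
    | add x y _ _ hx hy =>
      have h1 : tn e φ (x + y) = tn e φ x + tn e φ y := by
        ext v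
        change φ _ • (x + y) = φ _ • x + φ _ • y
        rw [smul_add]
      rw [h1]
      exact Submodule.add_mem _ hx hy
    | smul c x _ hx =>
      have h1 : tn e φ (c • x) = c • tn e φ x := by
        ext v
        change φ _ • (c • x) = c • (φ _ • x)
        rw [smul_comm]
      rw [h1]
      exact Submodule.smul_mem _ _ hx
  | zero =>
    have h1 : tn e (0 : MultilinearMap k (fun _ : κ => V) k) z = 0 := by
      ext v
      change (0 : k) • z = 0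
      rw [zero_smul]
    rw [h1]
    exact Submodule.zero_mem _
  | add x y _ _ hx hy =>
    have h1 : tn e (x + y) z = tn e x z + tn e y z := by
      ext v
      change (x _ + y _) • z = x _ • z + y _ • z
      rw [add_smul]
    rw [h1]
    exact Submodule.add_mem _ hx hy
  | smul c x _ hx =>
    have h1 : tn e (c • x) z = c • tn e x z := by
      ext v
      change (c • x _) • z = c • (x _ • z)
      rw [smul_assoc]
    rw [h1]
    exact Submodule.smul_mem _ _ hx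

end

section

variable {W T Γ N : Type} [AddCommGroup W] [Module ℚ W] [FiniteDimensional ℚ W] [AddCommGroup T] [Module ℂ T]
  [Group Γ] [AddCommGroup N] [Module ℚ N] {per : W →+ T} {ω₀ : W →ₗ[ℚ] W →ₗ[ℚ] ℚ}
  {D : ∀ (ℓ : ℕ) [Fact ℓ.Prime], FT.GaloisData per ω₀ Γ ℓ}
  {σ : ∀ (ℓ : ℕ) [Fact ℓ.Prime], Representation ℚ_[ℓ] Γ (ℚ_[ℓ] ⊗[ℚ] N)} {ℓ₀ : ℕ}

theorem common_tn {m n : ℕ} (e : Fin n ≃ Fin m × Fin 2)
    {ψ : MultilinearMap ℚ (fun _ : Fin m × Fin 2 => W) ℚ} (hψ : IsHodgeTensor per ψ) {c : ℤ} {z₀ : N}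
    (hz : IsCommonVector D σ ℓ₀ (c - m) z₀) : IsCommonMap D σ ℓ₀ c (tn e ψ z₀) := by
  intro ℓ _ hℓ f hf
  let b := Module.finBasis ℚ W
  have h1 : f = tn e (bcm (Ω := ℚ_[ℓ]) b ψ) ((1 : ℚ_[ℓ]) ⊗ₜ[ℚ] z₀) := by
    refine Basis.ext_multilinear (fun _ => b.baseChange ℚ_[ℓ]) fun I => ?_
    have h3 : (fun i => b.baseChange ℚ_[ℓ] (I i)) = fun i => (1 : ℚ_[ℓ]) ⊗ₜ[ℚ] b (I i) :=
      funext fun i => Basis.baseChange_apply _ _ _
    rw [h3, hf (fun i => b (I i)), tn_apply, tn_apply,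
      bcm_one (Ω := ℚ_[ℓ]) b ψ (fun l => b (I (e.symm l))), TensorProduct.tmul_smul, algebraMap_smul]
  obtain ⟨Δ, hΔ, h5⟩ := (D ℓ).deligne m ψ (bcm (Ω := ℚ_[ℓ]) b ψ) hψ (fun v => by
    have h6 := bcm_one (Ω := ℚ_[ℓ]) b ψ v
    rw [eq_ratCast] at h6
    exact h6)
  obtain ⟨Δ', hΔ', h6⟩ := hz ℓ hℓ
  refine ⟨Δ ⊓ Δ', inferInstance, fun s hs v => ?_⟩
  have h7 := h5 s hs.1 (fun l => v (e.symm l))
  have h8 := h6 s hs.2
  rw [h1, tn_apply, tn_apply, h7, map_smul]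
  conv_lhs => rw [← h8]
  rw [smul_smul, smul_smul]
  congr 1
  rw [zpow_sub₀ (chi_ne (D ℓ).χ s), zpow_natCast]
  have h9 := chi_ne (D ℓ).χ s
  field_simp

theorem vectors_of_maps (h : HasCommonMaps D σ ℓ₀) : HasCommonVectors D σ ℓ₀ := by
  rintro ℓ _ hℓ c z ⟨Δ, hΔ, hz⟩
  have h1 := h ℓ hℓ 0 c (MultilinearMap.constOfIsEmpty ℚ_[ℓ] (fun _ : Fin 0 => ℚ_[ℓ] ⊗[ℚ] W) z)
    ⟨Δ, hΔ, fun s hs v => (hz s hs).symm⟩
  have h2 : ∀ f' ∈ Submodule.span ℚ_[ℓ]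
      {f' : MultilinearMap ℚ_[ℓ] (fun _ : Fin 0 => ℚ_[ℓ] ⊗[ℚ] W) (ℚ_[ℓ] ⊗[ℚ] N) |
        ∃ f₀ : MultilinearMap ℚ (fun _ : Fin 0 => W) N, IsCommonMap D σ ℓ₀ c f₀ ∧ ComparesMap f' f₀},
      f' 0 ∈ Submodule.span ℚ_[ℓ] {y | ∃ z₀ : N, IsCommonVector D σ ℓ₀ c z₀ ∧ y = (1 : ℚ_[ℓ]) ⊗ₜ[ℚ] z₀} := by
    intro f' hf'
    induction hf' using Submodule.span_induction with
    | mem f' hf' =>
      obtain ⟨f₀, hc, hcmp⟩ := hf'
      refine Submodule.subset_span ⟨f₀ 0, fun ℓ' _ hℓ' => ?_, ?_⟩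
      · obtain ⟨Δ', hΔ', h3⟩ := hc ℓ' hℓ'
          (MultilinearMap.constOfIsEmpty ℚ_[ℓ'] (fun _ : Fin 0 => ℚ_[ℓ'] ⊗[ℚ] W) ((1 : ℚ_[ℓ']) ⊗ₜ[ℚ] f₀ 0))
          (fun v => by
            change (1 : ℚ_[ℓ']) ⊗ₜ[ℚ] f₀ 0 = (1 : ℚ_[ℓ']) ⊗ₜ[ℚ] f₀ v
            rw [Subsingleton.elim v 0])
        exact ⟨Δ', hΔ', fun s hs => (h3 s hs 0).symm⟩
      · have h3 := hcmp 0
        rw [← h3]
        congr 1
        exact Subsingleton.elim _ _
    | zero => exact Submodule.zero_mem _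
    | add x y _ _ hx hy => exact Submodule.add_mem _ hx hy
    | smul a x _ hx => exact Submodule.smul_mem _ a hx
  exact h2 _ h1

theorem maps_of_vectors (hvec : HasCommonVectors D σ ℓ₀)
    (hmul : ∀ (ℓ : ℕ) [Fact ℓ.Prime], ℓ₀ ≤ ℓ → (∀ (m : ℕ) (c : ℤ)
        (f : MultilinearMap ℚ_[ℓ] (fun _ : Fin m × Fin 2 => ℚ_[ℓ] ⊗[ℚ] W) (ℚ_[ℓ] ⊗[ℚ] N)),
        IsTateMulti (D ℓ).ρ (D ℓ).χ (σ ℓ) c f →
      ∃ (b : Set (MultilinearMap ℚ_[ℓ] (fun _ : Fin m × Fin 2 => ℚ_[ℓ] ⊗[ℚ] W) ℚ_[ℓ])) (T : Finset b)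
        (z : b → ℚ_[ℓ] ⊗[ℚ] N), b ⊆ PT (D ℓ).ρ (D ℓ).χ m ∧
        (∀ w ∈ T, IsTateVector (D ℓ).χ (σ ℓ) (c - m) (z w)) ∧
        ∀ v, f v = ∑ w ∈ T, (w : MultilinearMap ℚ_[ℓ] (fun _ : Fin m × Fin 2 => ℚ_[ℓ] ⊗[ℚ] W) ℚ_[ℓ]) v • z w) ∧
      ∀ (κ : Type) (_ : Fintype κ) (c : ℤ)
        (f : MultilinearMap ℚ_[ℓ] (fun _ : κ => ℚ_[ℓ] ⊗[ℚ] W) (ℚ_[ℓ] ⊗[ℚ] N)), Odd (Fintype.card κ) →
        IsTateMulti (D ℓ).ρ (D ℓ).χ (σ ℓ) c f → f = 0) : HasCommonMaps D σ ℓ₀ := by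
  classical
  intro ℓ _ hℓ n c f hf
  have hR := (D ℓ).realization
  have hanti : ∀ u v, (D ℓ).ω u v = - (D ℓ).ω v u := by
    intro u v
    have h1 := hR.alternating (u + v)
    simp only [map_add, LinearMap.add_apply, hR.alternating, zero_add, add_zero] at h1
    linear_combination h1
  have hnd' : ∀ u, (∀ v, (D ℓ).ω u v = 0) → u = 0 := by
    intro u hu
    apply hR.nondegenerate
    intro v
    rw [hanti, hu, neg_zero]
  rcases Nat.even_or_odd n with hn | hn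
  · obtain ⟨m, hm⟩ := hn
    obtain rfl : n = m * 2 := by omega
    let e : Fin (m * 2) ≃ Fin m × Fin 2 := finProdFinEquiv.symm
    obtain ⟨Δ, hΔ, hF⟩ := hf
    obtain ⟨b, T, z, hb, hz, hfv⟩ := (hmul ℓ hℓ).1 m c (f.domDomCongr e) ⟨Δ, hΔ, fun s hs v =>
      hF s hs (fun i => v (e i))⟩
    have hfs : f = ∑ w ∈ T, tn e (w : MultilinearMap ℚ_[ℓ] (fun _ : Fin m × Fin 2 => ℚ_[ℓ] ⊗[ℚ] W) ℚ_[ℓ]) (z w) := by
      ext v
      rw [mul_sum_apply]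
      refine Eq.trans ?_ (hfv (fun l => v (e.symm l)))
      change f v = f (fun i => v (e.symm (e i)))
      congr 1
      funext i
      rw [Equiv.symm_apply_apply]
    rw [hfs]
    refine Submodule.sum_mem _ fun w hw => ?_
    obtain ⟨e', B, hB, hw'⟩ := hb w.2
    have h1 := mmG_mem_span e' (HB (k := ℚ_[ℓ]) per (FT.incl W ℓ)) B
      (fun l => tate2_mem per (FT.incl W ℓ) (D ℓ).ρ (D ℓ).χ (D ℓ).ω hnd' hR.equivariant ω₀ hR.hodge
        hR.compatible hR.faltings (B l) (hB l))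
    rw [← hw'] at h1
    refine tn_span e (fun φ hφ y hy => ?_) h1 (hvec ℓ hℓ (c - m) (z w) (hz w hw))
    obtain ⟨B', hB', rfl⟩ := hφ
    obtain ⟨z₀, hz₀, rfl⟩ := hy
    obtain ⟨ψ, hψ, -, hcmp⟩ := mm_good per (FT.incl W ℓ) e' B' hB'
    refine ⟨tn e ψ z₀, common_tn e hψ hz₀, fun v => ?_⟩
    rw [tn_apply, tn_apply]
    have h2 := hcmp (fun l => v (e.symm l))
    have h3 : (mmG e' B') (fun l => (1 : ℚ_[ℓ]) ⊗ₜ[ℚ] v (e.symm l)) = ((ψ (fun l => v (e.symm l)) : ℚ) : ℚ_[ℓ]) := h2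
    rw [h3, TensorProduct.tmul_smul, ← eq_ratCast (algebraMap ℚ ℚ_[ℓ]), algebraMap_smul]
  · have h0 : f = 0 := (hmul ℓ hℓ).2 (Fin n) inferInstance c f (by rw [Fintype.card_fin]; exact hn) hf
    rw [h0]
    exact Submodule.zero_mem _

end

theorem commonFor_of_good {I : Type} [Fintype I] (g : I → ℕ) (E : IntermediateField ℚ ℂ)
    [FiniteDimensional ℚ E] {q : ℕ} (hq : q ≠ 0) (r : ℕ) (hr : ∀ i, r < g i)
    (x : (Σ i, Fin (g i)) → ℤ) (hx : GoodU (splitPrimes E) g q x) :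
    CommonFor E q r (fun i => weil q (polys g x i)) := by
  intro W T Γ _ _ _ _ _ _ per ω₀ D ℓ₀ γ hγ
  refine ⟨FT.hasCommonForm_of D ℓ₀ fun ℓ _ hℓ => mumfordTate_of_good g (fun i => (Nat.zero_le r).trans_lt (hr i)) E
    hq x hx (D ℓ).realization (γ ℓ) (hγ ℓ hℓ).1 (hγ ℓ hℓ).2, fun N _ _ _ σ hσ => ⟨vectors_of_maps, fun h =>
      maps_of_vectors h fun ℓ _ hℓ => ?_⟩⟩
  have hR := (D ℓ).realization
  exact multi_of_good g E hq r hr x hx (D ℓ).ρ (D ℓ).χ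
    ⟨⟨(D ℓ).ω, hR.alternating, hR.nondegenerate, hR.equivariant⟩, hR.semisimple⟩ (γ ℓ) (hγ ℓ hℓ).1 (hγ ℓ hℓ).2
    (σ ℓ) (hσ ℓ hℓ)

end

end Pool.Agent.N578.MT
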