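import Mathlib
import Pool.Agent.TH170.FT.MTDefs

/-!
# The Mumford-Tate conjecture for all abelian varieties with a given Frobenius polynomial: the property
-/

set_option autoImplicit false

namespace Pool.Agent.N578.MT

open Polynomial Pool.Agent.H204R3.GP Pool.Agent.TH170

/-- For all primes `ℓ` and all abelian varieties over number fields (or finitely generated fields; with the data and the
known properties in `IsRealization`) such that the characteristic polynomial of one Frobenius element `γ`, with `q` the
number of elements of the residue field, is the product of the `f i`: the Mumford-Tate conjecture holds, in the strong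
form that the Tate classes in the tensor powers of `H^1` are linear combinations of products of Hodge classes of degree
two. -/
def MumfordTateFor {I : Type} [Fintype I] (q : ℕ) (f : I → ℤ[X]) : Prop :=
  ∀ (ℓ : ℕ) [Fact ℓ.Prime] (W T V Γ : Type) [AddCommGroup W] [Module ℚ W] [AddCommGroup T] [Module ℂ T]
    [AddCommGroup V] [Module ℚ_[ℓ] V] [FiniteDimensional ℚ_[ℓ] V] [Group Γ] (per : W →+ T)
    (ω₀ : W →ₗ[ℚ] W →ₗ[ℚ] ℚ) (comp : W →+ V) (ρ : Representation ℚ_[ℓ] Γ V) (χ : Γ →* ℚ_[ℓ])
    (ω : V →ₗ[ℚ_[ℓ]] V →ₗ[ℚ_[ℓ]] ℚ_[ℓ]), FT.IsRealization per ω₀ comp ρ χ ω → ∀ γ : Γ, χ γ = q →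
      (ρ γ).charpoly = ∏ i, (f i).map (Int.castRingHom ℚ_[ℓ]) → MumfordTateStrong per comp ρ χ

end Pool.Agent.N578.MT
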