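import Mathlib
import Pool.Agent.N166.CZ.Def
import Pool.Agent.Y130.MM.Pub
import Pool.Agent.Y134.MR.Defs

/-!
# The motivic Sato-Tate conjecture for abelian varieties with a given Frobenius polynomial and arbitrary motives
-/

set_option autoImplicit false

namespace Pool.Agent.N578.MT

open Polynomial Pool.Agent.N166.CZ Pool.Agent.Y130.MM Pool.Agent.Y134.MR

/-- `G` is (the group of points over a field `K` containing `ℚ_ℓ` of) the motivic Galois group of the sum of the motives
`H_1(A)` of an abelian variety `A`, of a motive `N` and of the Tate motive `1(1)` over a field, `θ` its action on `1(1)`,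
`τ` its action on `V = H_1(A) ⊗ K`, and `Γ` is the Galois group, which maps to `G` by `ι`. The known properties: `V` has
the Weil pairing and is semisimple under all subgroups of finite index of `Γ` (Faltings), and all Tate classes of degree
two on `A × A` are motivated (Faltings: they are combinations of classes of divisors). -/
structure IsAbelianMotive {K V Γ G : Type} [Field K] [AddCommGroup V] [Module K V] [Group Γ] [Group G] (ι : Γ →* G)
    (θ : G →* Kˣ) (τ : Representation K G V) : Prop where
  tate : IsTateModule (τ.comp ι : Representation K Γ V) ((Units.coeHom K).comp (θ.comp ι))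
  faltings : ∀ B : V →ₗ[K] V →ₗ[K] K,
    (∃ Δ : Subgroup Γ, Δ.FiniteIndex ∧ ∀ s ∈ Δ, ∀ u v, B (τ (ι s) u) (τ (ι s) v) = (θ (ι s) : K) * B u v) →
    ∃ Δ : Subgroup G, Δ.FiniteIndex ∧ ∀ g ∈ Δ, ∀ u v, B (τ g u) (τ g v) = (θ g : K) * B u v

/-- For all abelian varieties `A` such that the characteristic polynomial of one Frobenius element `γ`, with `q` the number
of elements of the residue field, is the product of the `f i`:

* for all motives in the tannakian category of a motive `N`, with realization `M`, such that the eigenvalues of `γ⁻¹` on
`M` have rank at most `r` over `E`: all Tate classes in the `Hom (H_1(A)^{⊗ n}, M)(c)`, all `n` and `c`, are motivated if and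
only if this is true for `M(c)`, all `c`; and if this is true and `Γ` maps onto all finite quotients of `G` (it always does),
then the classes on which `Γ` itself acts through a power of the cyclotomic character are the classes on which `G` itself
acts through the same power of `θ`;
* in particular this holds for the trivial motive: the Tate classes in the `Hom (H_1(A)^{⊗ n}, 1)(c)` are motivated, and
those of `Γ` itself are those of `G` itself. -/
def MotivicFor {I : Type} [Fintype I] (E : IntermediateField ℚ ℂ) (q r : ℕ) (f : I → ℤ[X]) : Prop :=
  ∀ (K V Γ G : Type) [Field K] [CharZero K] [AddCommGroup V] [Module K V] [FiniteDimensional K V]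
    [Group Γ] [Group G] (ι : Γ →* G) (θ : G →* Kˣ) (τ : Representation K G V), IsAbelianMotive ι θ τ →
    ∀ γ : Γ, (θ (ι γ) : K) = q → (τ (ι γ)).charpoly = ∏ i, (f i).map (Int.castRingHom K) →
      (∀ (M : Type) [AddCommGroup M] [Module K M] [FiniteDimensional K M] (σ : Representation K G M),
        SmallRank E r (σ (ι γ⁻¹)) →
        ((∀ n, TateMotivated ι θ (homRep n τ σ)) ↔ TateMotivated ι θ σ) ∧
        (OntoQuotients ι → TateMotivated ι θ σ → ∀ n, SameTateClasses ι θ (homRep n τ σ))) ∧
      (∀ n, TateMotivated ι θ (homRep n τ (Representation.trivial K G K))) ∧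
      (OntoQuotients ι → ∀ n, SameTateClasses ι θ (homRep n τ (Representation.trivial K G K)))

end Pool.Agent.N578.MT
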