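import Mathlib
import Pool.Agent.N578.MT.DefMot
import Pool.Agent.N578.MT.Good2
import Pool.Agent.Y134.MR.Defs

/-!
# Motivated classes from multilinear Tate maps
-/

set_option autoImplicit false

namespace Pool.Agent.N578.MT

open Module Polynomial Pool.Agent.H204R3.GP Pool.Agent.H204R3.SP Pool.Agent.W484.TB
  Pool.Agent.W521.Frob Pool.Agent.W521.Count Pool.Agent.W521.Bad
  Pool.Agent.W521.Descent Pool.Agent.W521.Density Pool.Agent.N166.CZ
  Pool.Agent.Y130.MM Pool.Agent.Y134.MR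

section

variable {K V Γ G : Type} [Field K] [CharZero K] [AddCommGroup V] [Module K V] [FiniteDimensional K V]
    [Group Γ] [Group G] {ι : Γ →* G} {θ : G →* Kˣ} {τ : Representation K G V}
    {M : Type} [AddCommGroup M] [Module K M] [FiniteDimensional K M] {σ : Representation K G M}

theorem homRep_apply' (n : ℕ) (g : G) (w : MultilinearMap K (fun _ : Fin n => V) M) (v : Fin n → V) :
    homRep n τ σ g w v = σ g (w fun i => τ g⁻¹ (v i)) := rfl

/-- One product. -/
theorem product_motivated (hA : IsAbelianMotive ι θ τ) (hM : TateMotivated ι θ σ) {m : ℕ} {c : ℤ}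
    {P : MultilinearMap K (fun _ : Fin m × Fin 2 => V) K}
    (hP : P ∈ PT (τ.comp ι : Representation K Γ V) ((Units.coeHom K).comp (θ.comp ι)) m) {z : M}
    (hz : IsTateVector ((Units.coeHom K).comp (θ.comp ι)) (σ.comp ι : Representation K Γ M) c z) :
    ∃ Δ : Subgroup G, Δ.FiniteIndex ∧ ∀ g ∈ Δ, ∀ v : Fin m × Fin 2 → V,
      P (fun l => τ g⁻¹ (v l)) • σ g z = ((θ g ^ (-(m : ℤ) - c) : Kˣ) : K) • (P v • z) := by
  obtain ⟨e, B, hB, rfl⟩ := hP
  have h1 : ∀ l, ∃ Δ : Subgroup G, Δ.FiniteIndex ∧ ∀ g ∈ Δ, ∀ u v, B l (τ g u) (τ g v) = (θ g : K) * B l u v := by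
    intro l
    obtain ⟨Δ, hΔ, h⟩ := hB l
    exact hA.faltings (B l) ⟨Δ, hΔ, h⟩
  choose Δ hΔ h using h1
  obtain ⟨Δz, hΔz, hz⟩ := hz
  obtain ⟨Δ', hΔ', h'⟩ := hM (-c) z ⟨Δz, hΔz, fun s hs => by
    have h2 := hz s hs
    have h3 : ((θ (ι s) : Kˣ) : K) ≠ 0 := Units.ne_zero _
    have h4 : ((Units.coeHom K).comp (θ.comp ι)) s = ((θ (ι s) : Kˣ) : K) := rfl
    rw [h4] at h2
    have h5 : (σ.comp ι : Representation K Γ M) s z = σ (ι s) z := rfl
    rw [h5] at h2
    rw [Units.val_zpow_eq_zpow_val]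
    conv_rhs => rw [← h2]
    rw [smul_smul, ← zpow_add₀ h3, neg_add_cancel, zpow_zero, one_smul]⟩
  refine ⟨Δ' ⊓ ⨅ l, Δ l, ?_, fun g hg v => ?_⟩
  · have : (⨅ l, Δ l).FiniteIndex := Subgroup.finiteIndex_iInf hΔ
    infer_instance
  · rw [mmG_apply, mmG_apply]
    have hg0 : ((θ g : Kˣ) : K) ≠ 0 := Units.ne_zero _
    have h6 : ∀ l, B l (τ g⁻¹ (v (e (l, 0)))) (τ g⁻¹ (v (e (l, 1)))) =
        ((θ g : Kˣ) : K)⁻¹ * B l (v (e (l, 0))) (v (e (l, 1))) := by
      intro l
      have h7 := h l g⁻¹ (inv_mem ((Subgroup.mem_iInf.1 hg.2) l)) (v (e (l, 0))) (v (e (l, 1)))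
      rw [h7, map_inv, Units.val_inv_eq_inv_val]
    rw [Finset.prod_congr rfl (fun l _ => h6 l), Finset.prod_mul_distrib, Finset.prod_const,
      Finset.card_univ, Fintype.card_fin, h' g hg.1, smul_smul, smul_smul]
    congr 1
    rw [Units.val_zpow_eq_zpow_val, Units.val_zpow_eq_zpow_val, sub_eq_add_neg, zpow_add₀ hg0, zpow_neg _ (m : ℤ),
      zpow_natCast, inv_pow]
    ring

/-- From the multilinear Tate maps. -/
theorem motivated_of (hA : IsAbelianMotive ι θ τ) (hM : TateMotivated ι θ σ)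
    (hmul : (∀ (m : ℕ) (c : ℤ) (f : MultilinearMap K (fun _ : Fin m × Fin 2 => V) M),
        IsTateMulti (τ.comp ι : Representation K Γ V) ((Units.coeHom K).comp (θ.comp ι))
          (σ.comp ι : Representation K Γ M) c f →
      ∃ (b : Set (MultilinearMap K (fun _ : Fin m × Fin 2 => V) K)) (T : Finset b) (z : b → M),
        b ⊆ PT (τ.comp ι : Representation K Γ V) ((Units.coeHom K).comp (θ.comp ι)) m ∧
        (∀ w ∈ T, IsTateVector ((Units.coeHom K).comp (θ.comp ι)) (σ.comp ι : Representation K Γ M) (c - m) (z w)) ∧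
        ∀ v, f v = ∑ w ∈ T, (w : MultilinearMap K (fun _ : Fin m × Fin 2 => V) K) v • z w) ∧
    ∀ (κ : Type) (_ : Fintype κ) (c : ℤ) (f : MultilinearMap K (fun _ : κ => V) M), Odd (Fintype.card κ) →
      IsTateMulti (τ.comp ι : Representation K Γ V) ((Units.coeHom K).comp (θ.comp ι))
          (σ.comp ι : Representation K Γ M) c f → f = 0) (n : ℕ) :
    TateMotivated ι θ (homRep n τ σ) := by
  classical
  rintro j w ⟨Δ, hΔ, hw⟩
  have hF : ∀ s ∈ Δ, ∀ v : Fin n → V, w (fun l => (τ.comp ι : Representation K Γ V) s (v l)) =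
      ((Units.coeHom K).comp (θ.comp ι)) s ^ (-j) • (σ.comp ι : Representation K Γ M) s (w v) := by
    intro s hs v
    have h1 := congrArg (fun f : MultilinearMap K (fun _ : Fin n => V) M => f (fun l => τ (ι s) (v l))) (hw s hs)
    have h2 : homRep n τ σ (ι s) w (fun l => τ (ι s) (v l)) = σ (ι s) (w v) := by
      rw [homRep_apply']
      congr 2
      funext i
      change (τ (ι s)⁻¹ * τ (ι s)) (v i) = v i
      rw [← map_mul, inv_mul_cancel, map_one]
      rfl
    change homRep n τ σ (ι s) w (fun l => τ (ι s) (v l)) =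
      ((θ (ι s) ^ j : Kˣ) : K) • w (fun l => τ (ι s) (v l)) at h1
    rw [h2] at h1
    change w (fun l => τ (ι s) (v l)) = ((θ (ι s) : Kˣ) : K) ^ (-j) • σ (ι s) (w v)
    have h3 : ((θ (ι s) : Kˣ) : K) ≠ 0 := Units.ne_zero _
    rw [h1, smul_smul, Units.val_zpow_eq_zpow_val, ← zpow_add₀ h3, neg_add_cancel, zpow_zero, one_smul]
  rcases Nat.even_or_odd n with hn | hn
  · obtain ⟨m, hm⟩ := hn
    obtain rfl : n = m * 2 := by omega
    let e : Fin (m * 2) ≃ Fin m × Fin 2 := finProdFinEquiv.symm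
    obtain ⟨b, T, z, hb, hz, hfv⟩ := hmul.1 m (-j) (w.domDomCongr e) ⟨Δ, hΔ, fun s hs v => by
      have h1 := hF s hs (fun i => v (e i))
      exact h1⟩
    have hw' : ∀ v : Fin (m * 2) → V, w v = ∑ u ∈ T, (u : MultilinearMap K (fun _ : Fin m × Fin 2 => V) K)
        (fun l => v (e.symm l)) • z u := by
      intro v
      rw [← hfv]
      change w v = w (fun i => v (e.symm (e i)))
      congr 1
      funext i
      rw [Equiv.symm_apply_apply]
    have hprod : ∀ u : T, ∃ Δ : Subgroup G, Δ.FiniteIndex ∧ ∀ g ∈ Δ, ∀ v : Fin m × Fin 2 → V,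
        ((u : b) : MultilinearMap K (fun _ : Fin m × Fin 2 => V) K) (fun l => τ g⁻¹ (v l)) • σ g (z u) =
          ((θ g ^ (-(m : ℤ) - (-j - m)) : Kˣ) : K) •
            (((u : b) : MultilinearMap K (fun _ : Fin m × Fin 2 => V) K) v • z u) :=
      fun u => product_motivated hA hM (hb (u : b).2) (hz u u.2)
    choose Δu hΔu hu using hprod
    refine ⟨⨅ u, Δu u, Subgroup.finiteIndex_iInf hΔu, fun g hg => ?_⟩
    ext v
    change homRep (m * 2) τ σ g w v = ((θ g ^ j : Kˣ) : K) • w v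
    rw [homRep_apply', hw', hw', map_sum, Finset.smul_sum]
    refine Finset.sum_congr rfl fun u hu' => ?_
    rw [map_smul]
    have h1 := hu ⟨u, hu'⟩ g ((Subgroup.mem_iInf.1 hg) ⟨u, hu'⟩) (fun l => v (e.symm l))
    have h2 : -(m : ℤ) - (-j - m) = j := by ring
    rw [h2] at h1
    exact h1
  · have h0 : w = 0 := hmul.2 (Fin n) inferInstance (-j) w (by rw [Fintype.card_fin]; exact hn) ⟨Δ, hΔ, hF⟩
    refine ⟨⊤, inferInstance, fun g _ => ?_⟩
    rw [h0, map_zero, smul_zero]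

/-- Multilinear maps in no variables. -/
theorem of_zero (h : TateMotivated ι θ (homRep 0 τ σ)) : TateMotivated ι θ σ := by
  rintro j w ⟨Δ, hΔ, hw⟩
  obtain ⟨Δ', hΔ', h'⟩ := h j (MultilinearMap.constOfIsEmpty K (fun _ : Fin 0 => V) w) ⟨Δ, hΔ, fun s hs => by
    ext v
    exact hw s hs⟩
  refine ⟨Δ', hΔ', fun g hg => ?_⟩
  have h1 := congrArg (fun f : MultilinearMap K (fun _ : Fin 0 => V) M => f 0) (h' g hg)
  exact h1

theorem same_of (hι : OntoQuotients ι) (h : TateMotivated ι θ σ) : SameTateClasses ι θ σ := by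
  intro j w hw g
  obtain ⟨Δ, hΔ, h1⟩ := h j w ⟨⊤, inferInstance, fun s _ => hw s⟩
  obtain ⟨s, d, hd, rfl⟩ := hι Δ hΔ g
  rw [map_mul, Module.End.mul_apply, h1 d hd, map_smul, hw s, smul_smul, map_mul, mul_zpow,
    Units.val_mul, mul_comm]

/-- The trivial motive: the cyclotomic character has infinite order. -/
theorem trivial_motivated {q : ℕ} (hq : 2 ≤ q) (γ : Γ) (hγ : (θ (ι γ) : K) = q) :
    TateMotivated ι θ (Representation.trivial K G K) := by
  rintro j w ⟨Δ, hΔ, hw⟩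
  by_cases hw0 : w = 0
  · refine ⟨⊤, inferInstance, fun g _ => ?_⟩
    rw [hw0, map_zero, smul_zero]
  by_cases hj : j = 0
  · refine ⟨⊤, inferInstance, fun g _ => ?_⟩
    rw [hj, zpow_zero, Units.val_one, one_smul]
    rfl
  · exfalso
    obtain ⟨m, hm, -, hmem⟩ := Subgroup.exists_pow_mem_of_index_ne_zero hΔ.index_ne_zero γ
    have h1 := hw _ hmem
    change w = ((θ (ι (γ ^ m)) ^ j : Kˣ) : K) • w at h1
    rw [map_pow, map_pow, Units.val_zpow_eq_zpow_val, Units.val_pow_eq_pow_val, hγ, smul_eq_mul] at h1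
    have h2 : (((q : K) ^ m) ^ j) = 1 := by
      have h3 : (((q : K) ^ m) ^ j - 1) * w = 0 := by
        rw [sub_mul, one_mul, ← h1, sub_self]
      rcases mul_eq_zero.1 h3 with h | h
      · exact sub_eq_zero.1 h
      · exact absurd h hw0
    have h4 : ((q : ℚ) ^ m) ^ j = 1 := by
      have h5 : ((((q : ℚ) ^ m) ^ j : ℚ) : K) = ((1 : ℚ) : K) := by
        push_cast
        exact h2
      exact_mod_cast h5
    have hq1 : (1 : ℚ) < q := by exact_mod_cast (by omega : 1 < q)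
    have h6 : (1 : ℚ) < (q : ℚ) ^ m := one_lt_pow₀ hq1 hm.ne'
    exact hj ((zpow_eq_one_iff_right₀ (by linarith) h6.ne').1 h4)

end

theorem motivicFor_of_good {I : Type} [Fintype I] (g : I → ℕ) (E : IntermediateField ℚ ℂ)
    [FiniteDimensional ℚ E] {q : ℕ} (hq : 2 ≤ q) (r : ℕ) (hr : ∀ i, r < g i)
    (x : (Σ i, Fin (g i)) → ℤ) (hx : GoodU (splitPrimes E) g q x) :
    MotivicFor E q r (fun i => weil q (polys g x i)) := by
  intro K V Γ G _ _ _ _ _ _ _ ι θ τ hA γ hγ hc
  have key : ∀ (M : Type) [AddCommGroup M] [Module K M] [FiniteDimensional K M] (σ : Representation K G M),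
      SmallRank E r (σ (ι γ⁻¹)) → TateMotivated ι θ σ → ∀ n, TateMotivated ι θ (homRep n τ σ) := by
    intro M _ _ _ σ hσ hM n
    exact motivated_of hA hM (multi_of_good g E (by omega) r hr x hx (τ.comp ι : Representation K Γ V)
      ((Units.coeHom K).comp (θ.comp ι)) hA.tate γ hγ hc (σ.comp ι : Representation K Γ M) hσ) n
  have htriv : ∀ n, TateMotivated ι θ (homRep n τ (Representation.trivial K G K)) := by
    refine key K (Representation.trivial K G K) ?_ (trivial_motivated hq γ hγ)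
    refine ⟨X - C 1, X_sub_C_ne_zero 1, ?_, ?_⟩
    · rw [Polynomial.map_sub, map_X, map_C, map_one, map_sub, aeval_X, aeval_C, map_one]
      exact sub_self _
    · exact Pool.Agent.W484.CH.rank_one E r
  exact ⟨fun M _ _ _ σ hσ => ⟨⟨fun h => of_zero (h 0), fun h n => key M σ hσ h n⟩,
    fun hι h n => same_of hι (key M σ hσ h n)⟩, htriv, fun hι n => same_of hι (htriv n)⟩

end Pool.Agent.N578.MT
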